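import Pool.Agent.L5helper59.DC.Defs

/-!
NEARLY CUBIC: common definitions.
-/

namespace L5lead.NC

open Finset MvPolynomial L5helper59.DC

/-- Permanent of the submatrix with rows `S` and columns `T` (`0` if the sizes differ). -/
noncomputable def pm {R : Type*} [CommRing R] {α β : Type*} [Fintype β] (N : α → β → R)
    (S : Finset α) (T : Finset β) : R :=
  MvPolynomial.coeff (∑ j ∈ T, Finsupp.single j 1) (∏ i ∈ S, lin (N i))

/-- `w S T` (row ports `S`, column ports `T`) is the permanent of a matrix with `p` more rows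
and columns and entries of degree at most one. -/
def Rep {ι : Type} (α β : Type) [Fintype α] [Fintype β] (p : ℕ)
    (w : Finset α → Finset β → MvPolynomial ι ℂ) : Prop :=
  ∃ (P Q : Type) (_ : Fintype P) (_ : Fintype Q) (_ : DecidableEq P) (_ : DecidableEq Q),
    Fintype.card P = p ∧ Fintype.card Q = p ∧
    ∃ N : P ⊕ α → Q ⊕ β → MvPolynomial ι ℂ, (∀ x y, (N x y).totalDegree ≤ 1) ∧
      ∀ S T, pm N (univ.disjSum S) (univ.disjSum T) = w S T

section Colour

variable (B D : ℕ)

/-- rows -/
abbrev Rw := Fin D → Fin B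
/-- columns -/
abbrev Cl := Fin D → Fin (2 * B)
/-- layers -/
abbrev Ly := Fin D × Fin (B - 1)

/-- exponent of a row -/
def pe (h : Ly B D) (i : Rw B D) : ℕ := 2 * (i h.1 : ℕ) + 2 * (h.2 : ℕ) + 1
/-- exponent of a column -/
def qe (h : Ly B D) (j : Cl B D) : ℕ := 2 * (j h.1 : ℕ)
/-- the total exponent -/
def ge (b : Ly B D → Bool) (i : Rw B D) (j : Cl B D) : ℕ :=
  ∑ h, if b h then qe B D h j - pe B D h i else pe B D h i - qe B D h j

/-- the column `i + l` -/
def addc (i l : Rw B D) : Cl B D := fun d => ⟨(i d : ℕ) + (l d : ℕ), by omega⟩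

/-- the dense matrix: the variable `(l, i)` in the cell `(i, i + l)` -/
noncomputable def Ym (i : Rw B D) (j : Cl B D) :
    MvPolynomial (Option (Rw B D × Rw B D)) ℂ :=
  ∑ l, if j = addc B D i l then X (some (l, i)) else 0

/-- the polynomial with parameter `t` -/
noncomputable def Ft (r : ℕ) (t : ℂ) : MvPolynomial (Option (Rw B D × Rw B D)) ℂ :=
  X none + ∑ b : Ly B D → Bool, sig r (fun i j => C (t ^ ge B D b i j) * Ym B D i j)

/-- the limit -/
noncomputable def F0 (r : ℕ) : MvPolynomial (Option (Rw B D × Rw B D)) ℂ :=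
  X none + ∑ l : Rw B D, ∑ I ∈ powersetCard r (univ : Finset (Rw B D)),
    ∏ i ∈ I, X (some (l, i))

end Colour

end L5lead.NC
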